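import Pool.Agent.J4.H13.PM.Main

/-!
# Every homotopy type is realized by a partial model category

For every small category `D` there are a small category `M` and classes `W`, `C`, `F` of morphisms of `M`
such that `(M, W)` is a partial model category with acyclic cofibrations `C` and acyclic fibrations `F`,
and a functor `G` from `D` to the category `W` of weak equivalences which is a Thomason equivalence, i.e.
induces a weak homotopy equivalence of nerves. This is a positive answer to the question.

Thomason equivalences are treated axiomatically, as by Grothendieck, Maltsiniotis and Cisinski: a class of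
functors between small categories is a *basic localizer* if it has the two-out-of-three property, is closed
under retracts of the kind `I ⋙ R = 𝟭`, contains `A ⥤ pt` for every `A` with a terminal object and
satisfies Quillen's Theorem A and its dual. The functors `f` for which `N f` is a weak homotopy equivalence
form a basic localizer (Quillen 1973; by a theorem of Cisinski it is the smallest one). We prove that `G`
lies in EVERY basic localizer, in particular in the class of the Thomason equivalences.

Construction. Let `S` be the category with the objects of `D` and the morphisms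
`(ℕ → ℕ) × Hom_D(d, d')` (the first factor, the monoid of all maps `ℕ → ℕ`, is there to provide an interval
object), and let `M` be the category of all those presheaves `X` on `S`, with values in the subsets of a
fixed large set, whose category of elements `El X` is aspherical, i.e. `El X ⥤ pt` lies in every basic
localizer. Let `W` consist of all morphisms of `M`, `C` of those which are monomorphisms of presheaves, and
`F` of the morphisms `p : E → Y` such that `El (Z ×_Y E)` is aspherical for all `Z → Y` with `El Z`
aspherical. A pushout of aspherical presheaves along a monomorphism is aspherical (it is glued from the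
three given ones, by a Grothendieck construction over the walking span), and a morphism `X → Y` factors
functorially as `X → Y × J(X) → Y`, where `J(X)(s) = ∏_t Map(Hom(t, s), X(t) ∪ {∗})`. All the comma
categories of the Yoneda functor `S → M` are the aspherical categories `El X`, so that `S → M` is in every
basic localizer by Theorem A; so is `D → S`.
-/

set_option autoImplicit false

universe u

namespace Pool.Agent.J4.H13.PM.EveryHomotopyType

open CategoryTheory CategoryTheory.Limits

/-- A class of morphisms `W` of a small category `M` (closed under composition and containing the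
identities, so that it is a subcategory with all objects), together with classes `C`, `F` of morphisms, is a
**partial model category**: `C, F ⊆ W`; two-out-of-six; a morphism in `C` has a pushout along every morphism
of `M` with the same source, and all pushouts of morphisms in `C` are in `C`; dually for `F`; and there is a
functorial factorization of the morphisms of `W` (a functor on the category of arrows of the category `W`
together with natural transformations) as a morphism in `C` followed by a morphism in `F`. In addition `C`
and `F` are subcategories. -/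
structure IsPartialModelCategory {M : Type u} [SmallCategory M] (W C F : MorphismProperty M)
    [W.IsMultiplicative] : Prop where
  C_le : C ≤ W
  F_le : F ≤ W
  C_mult : C.IsMultiplicative
  F_mult : F.IsMultiplicative
  two_out_of_six : ∀ {X Y Z T : M} (r : X ⟶ Y) (s : Y ⟶ Z) (t : Z ⟶ T),
    W (r ≫ s) → W (s ≫ t) → W r ∧ W s ∧ W t ∧ W (r ≫ s ≫ t)
  hasPushout : ∀ {A B A' : M} (i : A ⟶ B) (f : A ⟶ A'), C i → HasPushout i f
  pushout_mem : ∀ {A B A' B' : M} (i : A ⟶ B) (f : A ⟶ A') (f' : B ⟶ B') (i' : A' ⟶ B'),
    IsPushout i f f' i' → C i → C i'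
  hasPullback : ∀ {X Y Y' : M} (p : X ⟶ Y) (f : Y' ⟶ Y), F p → HasPullback p f
  pullback_mem : ∀ {X Y X' Y' : M} (p : X ⟶ Y) (f : Y' ⟶ Y) (f' : X' ⟶ X) (p' : X' ⟶ Y'),
    IsPullback f' p' p f → F p → F p'
  factorization : Nonempty (MorphismProperty.FunctorialFactorizationData
    (C.inverseImage (wideSubcategoryInclusion W)) (F.inverseImage (wideSubcategoryInclusion W)))

/-- A class of functors between small categories. -/
abbrev FunctorClass : Type (u + 1) :=
  ∀ (A B : Type u) [SmallCategory A] [SmallCategory B], (A ⥤ B) → Prop

/-- A **basic localizer**: identities, two-out-of-three, closure under retracts, categories with a terminal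
object are aspherical, Quillen's Theorem A and its dual. -/
structure IsBasicLocalizer (𝒲 : FunctorClass.{u}) : Prop where
  id_mem : ∀ (A : Type u) [SmallCategory A], 𝒲 A A (𝟭 A)
  comp_mem : ∀ {A B C : Type u} [SmallCategory A] [SmallCategory B] [SmallCategory C]
    (F : A ⥤ B) (G : B ⥤ C), 𝒲 A B F → 𝒲 B C G → 𝒲 A C (F ⋙ G)
  of_comp_right : ∀ {A B C : Type u} [SmallCategory A] [SmallCategory B] [SmallCategory C]
    (F : A ⥤ B) (G : B ⥤ C), 𝒲 B C G → 𝒲 A C (F ⋙ G) → 𝒲 A B F
  of_comp_left : ∀ {A B C : Type u} [SmallCategory A] [SmallCategory B] [SmallCategory C]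
    (F : A ⥤ B) (G : B ⥤ C), 𝒲 A B F → 𝒲 A C (F ⋙ G) → 𝒲 B C G
  retract : ∀ {A B : Type u} [SmallCategory A] [SmallCategory B] (I : A ⥤ B) (R : B ⥤ A),
    I ⋙ R = 𝟭 A → 𝒲 B B (R ⋙ I) → 𝒲 B A R
  terminal : ∀ (A : Type u) [SmallCategory A] (t : A), Nonempty (IsTerminal t) →
    𝒲 A (Discrete PUnit.{u + 1}) (Functor.star A)
  theoremA : ∀ {A B : Type u} [SmallCategory A] [SmallCategory B] (F : A ⥤ B),
    (∀ b : B, 𝒲 (CostructuredArrow F b) (Discrete PUnit.{u + 1}) (Functor.star _)) → 𝒲 A B F
  theoremA_dual : ∀ {A B : Type u} [SmallCategory A] [SmallCategory B] (F : A ⥤ B),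
    (∀ b : B, 𝒲 (StructuredArrow b F) (Discrete PUnit.{u + 1}) (Functor.star _)) → 𝒲 A B F

/-- The functor lies in every basic localizer; in particular it is a Thomason equivalence. -/
def InEveryBasicLocalizer {A B : Type u} [SmallCategory A] [SmallCategory B] (G : A ⥤ B) : Prop :=
  ∀ 𝒲 : FunctorClass.{u}, IsBasicLocalizer 𝒲 → 𝒲 A B G

open Pool.Agent.J4.H13.PM

/-- Comparison with the bundled version. -/
def IsBasicLocalizer.toBasicLocalizer {𝒲 : FunctorClass.{u}} (h : IsBasicLocalizer 𝒲) :
    BasicLocalizer.{u} where
  W {A B} _ _ F := 𝒲 A B F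
  id_mem := h.id_mem
  comp_mem := h.comp_mem
  of_comp_right := h.of_comp_right
  of_comp_left := h.of_comp_left
  retract := h.retract
  terminal := h.terminal
  theoremA := h.theoremA
  theoremA' := h.theoremA_dual

/-- The inclusion of `M` in the category of all its morphisms. -/
def toTop (M : Type u) [SmallCategory M] : M ⥤ WideSubcategory (⊤ : MorphismProperty M) where
  obj X := ⟨X⟩
  map f := ⟨f, trivial⟩
  map_id _ := rfl
  map_comp _ _ := rfl

instance (M : Type u) [SmallCategory M] :
    (wideSubcategoryInclusion (⊤ : MorphismProperty M)).Full where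
  map_surjective f := ⟨⟨f, trivial⟩, rfl⟩

theorem toTop_mem (L : BasicLocalizer.{u}) (M : Type u) [SmallCategory M] : L.W (toTop M) := by
  have h1 : toTop M ⋙ wideSubcategoryInclusion (⊤ : MorphismProperty M) = 𝟭 M := rfl
  have h2 : (wideSubcategoryInclusion (⊤ : MorphismProperty M)).EssSurj :=
    ⟨fun X => ⟨⟨X⟩, ⟨Iso.refl _⟩⟩⟩
  have h3 : (wideSubcategoryInclusion (⊤ : MorphismProperty M)).IsEquivalence := {}
  exact L.of_comp_right _ _ (L.of_isEquivalence
    (wideSubcategoryInclusion (⊤ : MorphismProperty M))) (by rw [h1]; exact L.id_mem M)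

/-- **Every homotopy type is the homotopy type of the category of weak equivalences of a partial model
category.** -/
theorem result (D : Type u) [SmallCategory D] :
    ∃ (M : Type u) (_ : SmallCategory M) (W C F : MorphismProperty M) (_ : W.IsMultiplicative),
      IsPartialModelCategory W C F ∧
        ∃ G : D ⥤ WideSubcategory W, InEveryBasicLocalizer G := by
  let L : BasicLocalizer.{u} := minLocalizer.{u}
  let ι : MM (Sh D) L ⥤ ((Sh D)ᵒᵖ ⥤ Type u) := MM.ι (S := Sh D) L
  let C₀ : MorphismProperty ((Sh D)ᵒᵖ ⥤ Type u) := MorphismProperty.monomorphisms _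
  let F₀ : MorphismProperty ((Sh D)ᵒᵖ ⥤ Type u) := FF L
  obtain ⟨h1, h2⟩ := pushouts_of ι C₀ (fun {A B C} i f hi => by
    have hi' : Mono (ι.map i) := hi
    have h := IsPushout.of_hasPushout (ι.map i) (ι.map f)
    exact ⟨_, _, _, h, MM.mem_essImage L _ (Sm.of_isPushout h (MM.sm L B) (MM.sm L C))
      (asph_pushout L h (MM.asph L A) (MM.asph L B) (MM.asph L C)), mono_of_isPushout h⟩)
  obtain ⟨h3, h4⟩ := pullbacks_of ι F₀ (fun {A B C} f g hf => by
    have h := IsPullback.of_hasPullback (ι.map f) (ι.map g)
    exact ⟨_, _, _, h, MM.mem_essImage L _ (Sm.of_isPullback h (MM.sm L A) (MM.sm L B))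
      (hf _ (ι.map g) (MM.asph L B) _ _ _ h.flip), MorphismProperty.of_isPullback h hf⟩)
  have h5 : Nonempty (MorphismProperty.FunctorialFactorizationData
      (C₀.inverseImage (wideSubcategoryInclusion ⊤ ⋙ ι))
      (F₀.inverseImage (wideSubcategoryInclusion ⊤ ⋙ ι))) := by
    refine fact_of (wideSubcategoryInclusion ⊤ ⋙ ι) C₀ F₀ (factData L) (fun f => ?_)
    have h6 : ι.essImage (EJ (ι.obj f.left.obj) (ι.obj f.right.obj)) :=
      MM.mem_essImage L _ (Sm.EJ (MM.sm L _) (MM.sm L _)) (EJ.asph L _ _ (MM.asph L _))
    obtain ⟨X, ⟨e⟩⟩ := h6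
    exact ⟨⟨X⟩, ⟨e⟩⟩
  refine ⟨MM (Sh D) L, inferInstance, ⊤, C₀.inverseImage ι, F₀.inverseImage ι, inferInstance,
    { C_le := fun _ _ _ _ => trivial
      F_le := fun _ _ _ _ => trivial
      C_mult := inferInstance
      F_mult := inferInstance
      two_out_of_six := fun _ _ _ _ _ => ⟨trivial, trivial, trivial, trivial⟩
      hasPushout := h1
      pushout_mem := fun i f f' i' sq hi => h2.of_isPushout sq.flip hi
      hasPullback := h3
      pullback_mem := fun p f f' p' sq hp => h4.of_isPullback sq hp
      factorization := h5 }, Sh.inD D ⋙ yo (Sh D) L ⋙ toTop _, fun 𝒲 h𝒲 => ?_⟩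
  have h7 := L.comp_mem _ _ (Sh.inD_mem (D := D) L) (L.comp_mem _ _ (yo_mem (Sh D) L)
    (toTop_mem L (MM (Sh D) L)))
  exact h7 h𝒲.toBasicLocalizer

end Pool.Agent.J4.H13.PM.EveryHomotopyType
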