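import Pool.Agent.J4.H13.PM.Gr

/-!
# The site and the functorial factorization
-/

set_option autoImplicit false
set_option linter.unusedVariables false

universe u

namespace Pool.Agent.J4.H13.PM

open CategoryTheory CategoryTheory.Limits Opposite

/-- The category with the objects of `D` and the morphisms `(ℕ → ℕ) × (d ⟶ d')`. -/
structure Sh (D : Type u) : Type u where
  d : D

section Sh

variable {D : Type u} [SmallCategory D]

instance Sh.category : SmallCategory (Sh D) where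
  Hom a b := (ℕ → ℕ) × (a.d ⟶ b.d)
  id a := (id, 𝟙 a.d)
  comp f g := (g.1 ∘ f.1, f.2 ≫ g.2)
  id_comp f := Prod.ext rfl (Category.id_comp _)
  comp_id f := Prod.ext rfl (Category.comp_id _)
  assoc f g h := Prod.ext rfl (Category.assoc _ _ _)

theorem Sh.hom_ext {a b : Sh D} {f g : a ⟶ b} (h1 : ∀ m, f.1 m = g.1 m) (h2 : f.2 = g.2) : f = g :=
  Prod.ext (funext h1) h2

variable (D) in
/-- The inclusion of `D`. -/
def Sh.inD : D ⥤ Sh D where
  obj d := ⟨d⟩
  map f := (id, f)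
  map_id _ := rfl
  map_comp _ _ := rfl

variable (D) in
/-- The projection to `D`. -/
def Sh.pr : Sh D ⥤ D where
  obj s := s.d
  map f := f.2
  map_id _ := rfl
  map_comp _ _ := rfl

theorem Sh.inD_mem (L : BasicLocalizer.{u}) : L.W (Sh.inD D) := by
  have h1 : Sh.inD D ⋙ Sh.pr D = 𝟭 D := rfl
  have h2 : L.W (Sh.pr D) := by
    refine L.retract (Sh.inD D) (Sh.pr D) h1 ?_
    let z : 𝟭 (Sh D) ⟶ Sh.pr D ⋙ Sh.inD D :=
      { app := fun s => ((fun _ => 0, 𝟙 s.d) : (ℕ → ℕ) × (s.d ⟶ s.d))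
        naturality := fun a b f => Sh.hom_ext (fun _ => rfl)
          ((Category.comp_id f.2).trans (Category.id_comp f.2).symm) }
    exact (L.mem_iff_of_natTrans z).mp (L.id_mem _)
  exact L.of_comp_right _ _ h2 (by rw [h1]; exact L.id_mem D)

/-- The cylinder functor. -/
def Sh.T : Sh D ⥤ Sh D where
  obj s := s
  map f := (fun m => Nat.bit (Nat.bodd m) (f.1 (Nat.div2 m)), f.2)
  map_id s := Sh.hom_ext (fun m => Nat.bit_bodd_div2 m) rfl
  map_comp f g := Sh.hom_ext (fun m => by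
    show Nat.bit (Nat.bodd m) (g.1 (f.1 (Nat.div2 m))) =
      Nat.bit (Nat.bodd (Nat.bit (Nat.bodd m) (f.1 (Nat.div2 m))))
        (g.1 (Nat.div2 (Nat.bit (Nat.bodd m) (f.1 (Nat.div2 m)))))
    rw [Nat.bodd_bit, Nat.div2_bit]) rfl

/-- The two ends of the cylinder. -/
def Sh.σ (k : Bool) (s : Sh D) : s ⟶ s := ((fun m => Nat.bit k m, 𝟙 s.d) : (ℕ → ℕ) × (s.d ⟶ s.d))

/-- The projection of the cylinder. -/
def Sh.π (s : Sh D) : s ⟶ s := ((Nat.div2, 𝟙 s.d) : (ℕ → ℕ) × (s.d ⟶ s.d))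

theorem Sh.σ_π (k : Bool) (s : Sh D) : Sh.σ k s ≫ Sh.π s = 𝟙 s :=
  Sh.hom_ext (fun m => Nat.div2_bit k m) (Category.comp_id _)

theorem Sh.σ_nat (k : Bool) {s t : Sh D} (f : s ⟶ t) : f ≫ Sh.σ k t = Sh.σ k s ≫ Sh.T.map f :=
  Sh.hom_ext (fun m => by
    show Nat.bit k (f.1 m) = Nat.bit (Nat.bodd (Nat.bit k m)) (f.1 (Nat.div2 (Nat.bit k m)))
    rw [Nat.bodd_bit, Nat.div2_bit]) ((Category.comp_id f.2).trans (Category.id_comp f.2).symm)

theorem Sh.π_nat {s t : Sh D} (f : s ⟶ t) : Sh.T.map f ≫ Sh.π t = Sh.π s ≫ f :=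
  Sh.hom_ext (fun m => by
    show Nat.div2 (Nat.bit (Nat.bodd m) (f.1 (Nat.div2 m))) = f.1 (Nat.div2 m)
    rw [Nat.div2_bit]) ((Category.comp_id f.2).trans (Category.id_comp f.2).symm)

/-- `g : t ⟶ T s` lies over the end `0`. -/
def Sh.Z {s t : Sh D} (g : t ⟶ s) : Prop := Nat.bodd (g.1 0) = false

instance {s t : Sh D} (g : t ⟶ s) : Decidable (Sh.Z g) := by unfold Sh.Z; infer_instance

theorem Sh.Z_T {r s t : Sh D} (g : r ⟶ s) (f : s ⟶ t) : Sh.Z (g ≫ Sh.T.map f) ↔ Sh.Z g := by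
  show Nat.bodd (Nat.bit (Nat.bodd (g.1 0)) _) = false ↔ Nat.bodd (g.1 0) = false
  rw [Nat.bodd_bit]

theorem Sh.Z_σ (k : Bool) {s t : Sh D} (g : t ⟶ s) : Sh.Z (g ≫ Sh.σ k s) ↔ k = false := by
  show Nat.bodd (Nat.bit k _) = false ↔ k = false
  rw [Nat.bodd_bit]

end Sh

section Fac

variable {S : Type u} [SmallCategory S]

/-- The presheaf `Y × J(X)`, where `J(X)` is cofreely generated by the pointed sets `X(t) ∪ {∗}`. -/
def EJ (X Y : Sᵒᵖ ⥤ Type u) : Sᵒᵖ ⥤ Type u where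
  obj s := (Y.obj s) × (∀ t : S, (t ⟶ s.unop) → Option (X.obj (op t)))
  map f := ↾fun p => (Y.map f p.1, fun t g => p.2 t (g ≫ f.unop))
  map_id s := by
    apply ConcreteCategory.hom_ext
    intro p
    refine Prod.ext ?_ ?_
    · exact Y.map_id_apply _ _
    · funext t g
      show p.2 t (g ≫ 𝟙 _) = p.2 t g
      rw [Category.comp_id]
  map_comp f g := by
    apply ConcreteCategory.hom_ext
    intro p
    refine Prod.ext ?_ ?_
    · exact Y.map_comp_apply _ _ _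
    · funext t h
      show p.2 t (h ≫ (f ≫ g).unop) = p.2 t ((h ≫ g.unop) ≫ f.unop)
      rw [unop_comp, Category.assoc]

/-- The inclusion `X → Y × J(X)`. -/
def EJ.inl {X Y : Sᵒᵖ ⥤ Type u} (f : X ⟶ Y) : X ⟶ EJ X Y where
  app s := ↾fun x => (f.app s x, fun t g => some (X.map g.op x))
  naturality s s' g := by
    ext x
    refine Prod.ext ?_ ?_
    · exact NatTrans.naturality_apply f g x
    · funext t h
      show some (X.map h.op (X.map g x)) = some (X.map (h ≫ g.unop).op x)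
      rw [op_comp, Functor.map_comp_apply]
      rfl

/-- The projection `Y × J(X) → Y`. -/
def EJ.fst (X Y : Sᵒᵖ ⥤ Type u) : EJ X Y ⟶ Y where
  app s := ↾fun p => p.1
  naturality s s' g := rfl

/-- Functoriality. -/
def EJ.map {X Y X' Y' : Sᵒᵖ ⥤ Type u} (a : X ⟶ X') (b : Y ⟶ Y') : EJ X Y ⟶ EJ X' Y' where
  app s := ↾fun p => (b.app s p.1, fun t g => (p.2 t g).map (a.app (op t)))
  naturality s s' g := by
    ext p
    refine Prod.ext ?_ rfl
    exact NatTrans.naturality_apply b g p.1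

theorem EJ.map_id (X Y : Sᵒᵖ ⥤ Type u) : EJ.map (𝟙 X) (𝟙 Y) = 𝟙 (EJ X Y) := by
  ext s p
  refine Prod.ext rfl ?_
  funext t g
  show (p.2 t g).map ((𝟙 X : X ⟶ X).app (op t)) = p.2 t g
  cases p.2 t g <;> rfl

theorem EJ.map_comp {X Y X' Y' X'' Y'' : Sᵒᵖ ⥤ Type u} (a : X ⟶ X') (b : Y ⟶ Y') (a' : X' ⟶ X'')
    (b' : Y' ⟶ Y'') : EJ.map (a ≫ a') (b ≫ b') = EJ.map a b ≫ EJ.map a' b' := by
  ext s p
  refine Prod.ext rfl ?_
  funext t g
  show (p.2 t g).map ((a ≫ a').app (op t)) = ((p.2 t g).map (a.app (op t))).map (a'.app (op t))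
  cases p.2 t g <;> rfl

/-- The functor `(X → Y) ↦ Y × J(X)`. -/
def EJ.functor (S : Type u) [SmallCategory S] : Arrow (Sᵒᵖ ⥤ Type u) ⥤ (Sᵒᵖ ⥤ Type u) where
  obj f := EJ f.left f.right
  map φ := EJ.map φ.left φ.right
  map_id f := EJ.map_id _ _
  map_comp φ ψ := EJ.map_comp _ _ _ _

/-- The inclusions form a natural transformation. -/
def EJ.inlNat (S : Type u) [SmallCategory S] :
    (Arrow.leftFunc : Arrow (Sᵒᵖ ⥤ Type u) ⥤ _) ⟶ EJ.functor S where
  app f := EJ.inl f.hom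
  naturality f g φ := by
    ext s x
    refine Prod.ext ?_ ?_
    · show g.hom.app s (φ.left.app s x) = φ.right.app s (f.hom.app s x)
      rw [← NatTrans.comp_app_apply, ← NatTrans.comp_app_apply, φ.w]
    · funext t h
      show some (g.left.map h.op (φ.left.app s x)) =
        (some (f.left.map h.op x)).map (φ.left.app (op t))
      exact congrArg some (NatTrans.naturality_apply φ.left h.op x).symm

/-- The projections form a natural transformation. -/
def EJ.fstNat (S : Type u) [SmallCategory S] :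
    EJ.functor S ⟶ (Arrow.rightFunc : Arrow (Sᵒᵖ ⥤ Type u) ⥤ _) where
  app f := EJ.fst f.left f.right
  naturality f g φ := rfl

theorem EJ.inl_injective {X Y : Sᵒᵖ ⥤ Type u} (f : X ⟶ Y) (s : Sᵒᵖ) :
    Function.Injective ((EJ.inl f).app s) := by
  intro x y h
  have h1 : (some (X.map (𝟙 s.unop).op x) : Option _) = some (X.map (𝟙 s.unop).op y) :=
    congrFun (congrFun (congrArg Prod.snd h) s.unop) (𝟙 s.unop)
  have h2 := Option.some.inj h1
  rw [op_id] at h2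
  exact (X.map_id_apply _ x).symm.trans (h2.trans (X.map_id_apply _ y))

theorem EJ.isPullback (X : Sᵒᵖ ⥤ Type u) {Y Z : Sᵒᵖ ⥤ Type u} (g : Z ⟶ Y) :
    IsPullback (EJ.fst X Z) (EJ.map (𝟙 X) g) g (EJ.fst X Y) := by
  have hw : EJ.fst X Z ≫ g = EJ.map (𝟙 X) g ≫ EJ.fst X Y := rfl
  refine ⟨⟨hw⟩, ⟨PullbackCone.IsLimit.mk hw
    (fun s =>
      { app := fun r => ↾fun w => (s.fst.app r w, (s.snd.app r w).2)
        naturality := fun r r' f => by
          apply ConcreteCategory.hom_ext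
          intro w
          have h1 := NatTrans.naturality_apply s.fst f w
          have h2 := NatTrans.naturality_apply s.snd f w
          refine Prod.ext ?_ ?_
          · exact h1
          · have h3 := congrArg Prod.snd h2
            exact h3 })
    (fun s => rfl) (fun s => ?_) (fun s m h1 h2 => ?_)⟩⟩
  · ext r w
    have h := types_congr_hom (NatTrans.congr_app s.condition r) w
    refine Prod.ext h ?_
    funext t k
    show ((s.snd.app r w).2 t k).map ((𝟙 X : X ⟶ X).app (op t)) = (s.snd.app r w).2 t k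
    cases (s.snd.app r w).2 t k <;> rfl
  · ext r w
    refine Prod.ext ?_ ?_
    · rw [← h1]
      rfl
    · show (m.app r w).2 = (s.snd.app r w).2
      rw [← h2]
      funext t k
      show (m.app r w).2 t k = ((m.app r w).2 t k).map ((𝟙 X : X ⟶ X).app (op t))
      cases (m.app r w).2 t k <;> rfl

end Fac

section Contr

variable {D : Type u} [SmallCategory D]

/-- The section of the projection. -/
def EJ.zero (X Z : (Sh D)ᵒᵖ ⥤ Type u) : Z ⟶ EJ X Z where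
  app s := ↾fun z => (z, fun _ _ => none)
  naturality s s' g := rfl

theorem EJ.aux1 (Z : (Sh D)ᵒᵖ ⥤ Type u) {s t : Sh D} (f : s ⟶ t) (z : Z.obj (op t)) :
    Z.map (Sh.T.map f).op (Z.map (Sh.π t).op z) = Z.map (Sh.π s).op (Z.map f.op z) := by
  have h1 := Z.map_comp_apply (Sh.π t).op (Sh.T.map f : s ⟶ t).op z
  have h2 := Z.map_comp_apply f.op (Sh.π s).op z
  have h3 := types_congr_hom (congrArg (fun h : s ⟶ t => Z.map h.op) (Sh.π_nat f)) z
  exact h1.symm.trans (h3.trans h2)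

theorem EJ.aux2 (X : (Sh D)ᵒᵖ ⥤ Type u) {s t : Sh D} (f : s ⟶ t)
    (φ : ∀ r : Sh D, (r ⟶ t) → Option (X.obj (op r))) (r : Sh D) (g : r ⟶ s) :
    (if Sh.Z (g ≫ Sh.T.map f) then φ r ((g ≫ Sh.T.map f) ≫ Sh.π t) else none) =
      (if Sh.Z g then φ r ((g ≫ Sh.π s) ≫ f) else none) := by
  have h : (g ≫ Sh.T.map f) ≫ Sh.π t = (g ≫ Sh.π s) ≫ f :=
    (Category.assoc _ _ _).trans ((congrArg (g ≫ ·) (Sh.π_nat f)).trans (Category.assoc _ _ _).symm)
  by_cases hg : Sh.Z g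
  · rw [if_pos hg, if_pos ((Sh.Z_T g f).mpr hg), h]
  · rw [if_neg hg, if_neg (fun h' => hg ((Sh.Z_T g f).mp h'))]

theorem EJ.aux3 (Z : (Sh D)ᵒᵖ ⥤ Type u) (k : Bool) (s : Sh D) (z : Z.obj (op s)) :
    Z.map (Sh.σ k s).op (Z.map (Sh.π s).op z) = z := by
  rw [← Functor.map_comp_apply, ← op_comp, Sh.σ_π, op_id, Functor.map_id_apply]

theorem EJ.aux4 (X : (Sh D)ᵒᵖ ⥤ Type u) (s : Sh D)
    (φ : ∀ r : Sh D, (r ⟶ s) → Option (X.obj (op r))) (r : Sh D) (g : r ⟶ s) :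
    (if Sh.Z (g ≫ Sh.σ false s) then φ r ((g ≫ Sh.σ false s) ≫ Sh.π s) else none) = φ r g := by
  rw [if_pos ((Sh.Z_σ false g).mpr rfl), Category.assoc, Sh.σ_π, Category.comp_id]

theorem EJ.aux5 (X : (Sh D)ᵒᵖ ⥤ Type u) (s : Sh D)
    (φ : ∀ r : Sh D, (r ⟶ s) → Option (X.obj (op r))) (r : Sh D) (g : r ⟶ s) :
    (if Sh.Z (g ≫ Sh.σ true s) then φ r ((g ≫ Sh.σ true s) ≫ Sh.π s) else none) = none := by
  rw [if_neg (fun h => by simpa using (Sh.Z_σ true g).mp h)]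

/-- The contraction. -/
def EJ.Φ (X Z : (Sh D)ᵒᵖ ⥤ Type u) : El (EJ X Z) ⥤ El (EJ X Z) where
  obj a := ⟨a.s, (Z.map (Sh.π a.s).op a.x.1,
    fun t (g : t ⟶ a.s) => if Sh.Z g then a.x.2 t (g ≫ Sh.π a.s) else none)⟩
  map {a b} f := ⟨Sh.T.map f.1, by
    have h1 : Z.map f.1.op b.x.1 = a.x.1 := congrArg Prod.fst f.2
    have h2 : (fun t (g : t ⟶ a.s) => b.x.2 t (g ≫ f.1)) = a.x.2 := congrArg Prod.snd f.2
    refine Prod.ext ?_ ?_
    · exact (EJ.aux1 Z f.1 b.x.1).trans (congrArg (Z.map (Sh.π a.s).op) h1)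
    · funext t g
      refine (EJ.aux2 X f.1 b.x.2 t g).trans ?_
      exact congrArg (fun (ψ : ∀ r : Sh D, (r ⟶ a.s) → Option (X.obj (op r))) =>
        if Sh.Z g then ψ t (g ≫ Sh.π a.s) else none) h2⟩
  map_id a := El.hom_ext (Sh.T.map_id _)
  map_comp f g := El.hom_ext (Sh.T.map_comp _ _)

/-- The identity is connected to the contraction. -/
def EJ.α (X Z : (Sh D)ᵒᵖ ⥤ Type u) : 𝟭 (El (EJ X Z)) ⟶ EJ.Φ X Z where
  app a := ⟨Sh.σ false a.s, Prod.ext (EJ.aux3 Z false a.s a.x.1)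
    (funext fun t => funext fun g => EJ.aux4 X a.s a.x.2 t g)⟩
  naturality a b f := El.hom_ext (Sh.σ_nat false f.1)

/-- The retraction is connected to the contraction. -/
def EJ.β (X Z : (Sh D)ᵒᵖ ⥤ Type u) :
    El.map (EJ.fst X Z) ⋙ El.map (EJ.zero X Z) ⟶ EJ.Φ X Z where
  app a := ⟨Sh.σ true a.s, Prod.ext (EJ.aux3 Z true a.s a.x.1)
    (funext fun t => funext fun g => EJ.aux5 X a.s a.x.2 t g)⟩
  naturality a b f := El.hom_ext (Sh.σ_nat true f.1)

theorem EJ.asph (L : BasicLocalizer.{u}) (X Z : (Sh D)ᵒᵖ ⥤ Type u) (h : L.Asph (El Z)) :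
    L.Asph (El (EJ X Z)) := by
  have h1 : L.W (El.map (EJ.fst X Z)) := by
    refine L.retract (El.map (EJ.zero X Z)) (El.map (EJ.fst X Z)) rfl ?_
    rw [L.mem_iff_of_natTrans (EJ.β X Z), ← L.mem_iff_of_natTrans (EJ.α X Z)]
    exact L.id_mem _
  exact (L.asph_iff h1).mpr h

end Contr

end Pool.Agent.J4.H13.PM
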