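import Pool.Agent.J4.H13.PM.Loc

/-!
# Categories of elements and a gluing lemma for asphericity
-/

set_option autoImplicit false

universe u

namespace Pool.Agent.J4.H13.PM

open CategoryTheory CategoryTheory.Limits Opposite

variable {S : Type u} [SmallCategory S]

/-- The category of elements of a presheaf: pairs `(s, x)`, `x ∈ X(s)`; morphisms `(s, x) ⟶ (t, y)` are
the morphisms `f : s ⟶ t` with `X(f)(y) = x`. -/
structure El (X : Sᵒᵖ ⥤ Type u) : Type u where
  s : S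
  x : X.obj (op s)

instance El.category (X : Sᵒᵖ ⥤ Type u) : SmallCategory (El X) where
  Hom a b := {f : a.s ⟶ b.s // X.map f.op b.x = a.x}
  id a := ⟨𝟙 a.s, by rw [op_id, X.map_id_apply]⟩
  comp {a b c} f g := ⟨f.1 ≫ g.1, by rw [op_comp, X.map_comp_apply, g.2, f.2]⟩
  id_comp f := Subtype.ext (Category.id_comp _)
  comp_id f := Subtype.ext (Category.comp_id _)
  assoc f g h := Subtype.ext (Category.assoc _ _ _)

@[simp] theorem El.comp_val {X : Sᵒᵖ ⥤ Type u} {a b c : El X} (f : a ⟶ b) (g : b ⟶ c) :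
    (f ≫ g).1 = f.1 ≫ g.1 := rfl

@[simp] theorem El.id_val {X : Sᵒᵖ ⥤ Type u} (a : El X) : (𝟙 a : a ⟶ a).1 = 𝟙 a.s := rfl

theorem El.hom_ext {X : Sᵒᵖ ⥤ Type u} {a b : El X} {f g : a ⟶ b} (h : f.1 = g.1) : f = g :=
  Subtype.ext h

/-- Functoriality of the category of elements. -/
def El.map {X Y : Sᵒᵖ ⥤ Type u} (η : X ⟶ Y) : El X ⥤ El Y where
  obj a := ⟨a.s, η.app _ a.x⟩
  map {a b} f := ⟨f.1, by
    show Y.map f.1.op (η.app _ b.x) = η.app _ a.x
    rw [← NatTrans.naturality_apply, f.2]⟩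
  map_id _ := El.hom_ext rfl
  map_comp _ _ := El.hom_ext rfl

/-- An isomorphism between objects of `El X` over the identity. -/
def El.isoMk' {X : Sᵒᵖ ⥤ Type u} (s : S) {x y : X.obj (op s)} (h : x = y) :
    (⟨s, x⟩ : El X) ≅ ⟨s, y⟩ where
  hom := ⟨𝟙 s, by subst h; exact X.map_id_apply _ _⟩
  inv := ⟨𝟙 s, by subst h; exact X.map_id_apply _ _⟩
  hom_inv_id := El.hom_ext (Category.id_comp _)
  inv_hom_id := El.hom_ext (Category.id_comp _)

/-- Isomorphic presheaves have equivalent categories of elements. -/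
def El.equivOfIso {X Y : Sᵒᵖ ⥤ Type u} (e : X ≅ Y) : El X ≌ El Y :=
  CategoryTheory.Equivalence.mk (El.map e.hom) (El.map e.inv)
    (NatIso.ofComponents (fun a => El.isoMk' a.s (by
        show a.x = e.inv.app _ (e.hom.app _ a.x)
        simp))
      (fun f => El.hom_ext (by
        show f.1 ≫ 𝟙 _ = 𝟙 _ ≫ f.1
        simp)))
    (NatIso.ofComponents (fun a => El.isoMk' a.s (by
        show e.hom.app _ (e.inv.app _ a.x) = a.x
        simp))
      (fun f => El.hom_ext (by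
        show f.1 ≫ 𝟙 _ = 𝟙 _ ≫ f.1
        simp)))

theorem El.asph_of_iso (L : BasicLocalizer.{u}) {X Y : Sᵒᵖ ⥤ Type u} (e : X ≅ Y)
    (h : L.Asph (El X)) : L.Asph (El Y) :=
  (L.asph_iff (L.of_isEquivalence (El.equivOfIso e).functor)).mp h

section Gr

variable {I : Type u} [SmallCategory I] (𝕏 : I ⥤ (Sᵒᵖ ⥤ Type u))

/-- The two-sided category of elements of a diagram of presheaves, covariant in the index. -/
structure Gr : Type u where
  l : I
  s : S
  x : (𝕏.obj l).obj (op s)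

instance Gr.category : SmallCategory (Gr 𝕏) where
  Hom a b := {φ : (a.l ⟶ b.l) × (a.s ⟶ b.s) //
    (𝕏.map φ.1).app _ a.x = (𝕏.obj b.l).map φ.2.op b.x}
  id a := ⟨(𝟙 _, 𝟙 _), by simp⟩
  comp {a b c} φ ψ := ⟨(φ.1.1 ≫ ψ.1.1, φ.1.2 ≫ ψ.1.2), by
    have h1 := φ.2
    have h2 := ψ.2
    show (𝕏.map (φ.1.1 ≫ ψ.1.1)).app _ a.x = (𝕏.obj c.l).map (φ.1.2 ≫ ψ.1.2).op c.x
    rw [𝕏.map_comp, NatTrans.comp_app_apply, h1, op_comp, Functor.map_comp_apply, ← h2,
      NatTrans.naturality_apply]⟩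
  id_comp f := Subtype.ext (Prod.ext (Category.id_comp _) (Category.id_comp _))
  comp_id f := Subtype.ext (Prod.ext (Category.comp_id _) (Category.comp_id _))
  assoc f g h := Subtype.ext (Prod.ext (Category.assoc _ _ _) (Category.assoc _ _ _))

variable {𝕏}

theorem Gr.hom_ext {a b : Gr 𝕏} {f g : a ⟶ b} (h1 : f.1.1 = g.1.1) (h2 : f.1.2 = g.1.2) : f = g :=
  Subtype.ext (Prod.ext h1 h2)

variable (𝕏)

theorem Gr.aux_push {l m n : I} {s t : S} (φ : l ⟶ m) (b : m ⟶ n) (a : l ⟶ n) (h1 : φ ≫ b = a)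
    (f : s ⟶ t) (x : (𝕏.obj l).obj (op s)) (y : (𝕏.obj m).obj (op t))
    (h2 : (𝕏.map φ).app _ x = (𝕏.obj m).map f.op y) :
    (𝕏.obj n).map f.op ((𝕏.map b).app _ y) = (𝕏.map a).app _ x := by
  rw [← h1, 𝕏.map_comp, NatTrans.comp_app_apply, h2, NatTrans.naturality_apply]

theorem Gr.aux_push' {l n : I} {s t : S} (φ a : l ⟶ n) (h1 : φ ≫ 𝟙 n = a)
    (f : s ⟶ t) (x : (𝕏.obj l).obj (op s)) (y : (𝕏.obj n).obj (op t))
    (h2 : (𝕏.map φ).app _ x = (𝕏.obj n).map f.op y) :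
    (𝕏.obj n).map f.op y = (𝕏.map a).app _ x := by
  rw [← h1, Category.comp_id, h2]

theorem Gr.aux_pull {l m : I} {r s t : S} (φ : l ⟶ m) (a : r ⟶ s) (f : s ⟶ t) (b : r ⟶ t)
    (h1 : a ≫ f = b) (x : (𝕏.obj l).obj (op s)) (y : (𝕏.obj m).obj (op t))
    (h2 : (𝕏.map φ).app _ x = (𝕏.obj m).map f.op y) :
    (𝕏.map φ).app _ ((𝕏.obj l).map a.op x) = (𝕏.obj m).map b.op y := by
  rw [NatTrans.naturality_apply, h2, ← h1, op_comp, Functor.map_comp_apply]

theorem Gr.aux_pull' {l m : I} {s t : S} (φ : l ⟶ m) (f b : s ⟶ t)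
    (h1 : 𝟙 s ≫ f = b) (x : (𝕏.obj l).obj (op s)) (y : (𝕏.obj m).obj (op t))
    (h2 : (𝕏.map φ).app _ x = (𝕏.obj m).map f.op y) :
    (𝕏.map φ).app _ x = (𝕏.obj m).map b.op y := by
  rw [← h1, Category.id_comp, h2]

/-- The projection to the index category. -/
def Gr.proj : Gr 𝕏 ⥤ I where
  obj a := a.l
  map f := f.1.1

/-- The inclusion of a fibre into the comma category. -/
def Gr.fib (l : I) : El (𝕏.obj l) ⥤ CostructuredArrow (Gr.proj 𝕏) l where
  obj a := CostructuredArrow.mk (Y := (⟨l, a.s, a.x⟩ : Gr 𝕏)) (𝟙 l)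
  map {a b} f := CostructuredArrow.homMk (⟨(𝟙 l, f.1), by
    show (𝕏.map (𝟙 l)).app _ a.x = (𝕏.obj l).map f.1.op b.x
    rw [f.2]; simp⟩ : (⟨l, a.s, a.x⟩ : Gr 𝕏) ⟶ ⟨l, b.s, b.x⟩) (Category.comp_id _)
  map_id a := by
    apply CostructuredArrow.hom_ext
    exact Gr.hom_ext rfl rfl
  map_comp f g := by
    apply CostructuredArrow.hom_ext
    exact Gr.hom_ext (Category.comp_id _).symm rfl

/-- The pushforward from the comma category to the fibre. -/
def Gr.push (l : I) : CostructuredArrow (Gr.proj 𝕏) l ⥤ El (𝕏.obj l) where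
  obj a := ⟨a.left.s, (𝕏.map a.hom).app _ a.left.x⟩
  map {a b} f := ⟨f.left.1.2,
    Gr.aux_push 𝕏 f.left.1.1 b.hom a.hom (CostructuredArrow.w f) _ _ _ f.left.2⟩
  map_id _ := El.hom_ext rfl
  map_comp _ _ := El.hom_ext rfl

/-- The adjunction between pushforward and the inclusion of the fibre. -/
def Gr.adj (l : I) : Gr.push 𝕏 l ⊣ Gr.fib 𝕏 l :=
  Adjunction.mkOfHomEquiv
    { homEquiv := fun a b =>
        { toFun := fun f => CostructuredArrow.homMk (⟨(a.hom, f.1), f.2.symm⟩ :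
            a.left ⟶ (⟨l, b.s, b.x⟩ : Gr 𝕏)) (Category.comp_id _)
          invFun := fun g => ⟨g.left.1.2,
            Gr.aux_push' 𝕏 g.left.1.1 a.hom (CostructuredArrow.w g) _ _ _ g.left.2⟩
          left_inv := fun f => El.hom_ext rfl
          right_inv := fun g => by
            apply CostructuredArrow.hom_ext
            have h1 : g.left.1.1 ≫ 𝟙 l = a.hom := CostructuredArrow.w g
            exact Gr.hom_ext (h1.symm.trans (Category.comp_id _)) rfl }
      homEquiv_naturality_left_symm := fun f g => El.hom_ext rfl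
      homEquiv_naturality_right := fun f g => by
        apply CostructuredArrow.hom_ext
        exact Gr.hom_ext (Category.comp_id _).symm rfl }

theorem Gr.asph (L : BasicLocalizer.{u}) (hI : L.Asph I) (h : ∀ l, L.Asph (El (𝕏.obj l))) :
    L.Asph (Gr 𝕏) := by
  refine (L.asph_iff (F := Gr.proj 𝕏) (L.theoremA _ fun l => ?_)).mpr hI
  exact (L.asph_iff (L.of_rightAdjoint (Gr.adj 𝕏 l))).mp (h l)

variable {𝕏} {P : Sᵒᵖ ⥤ Type u} (γ : ∀ l, 𝕏.obj l ⟶ P)
  (hγ : ∀ {l m : I} (f : l ⟶ m), 𝕏.map f ≫ γ m = γ l)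

/-- The fibre over an element of `P`. -/
structure Fb (e : El P) : Type u where
  l : I
  x : (𝕏.obj l).obj (op e.s)
  h : (γ l).app _ x = e.x

instance Fb.category (e : El P) : SmallCategory (Fb γ e) where
  Hom a b := {φ : a.l ⟶ b.l // (𝕏.map φ).app _ a.x = b.x}
  id a := ⟨𝟙 _, by simp⟩
  comp {a b c} φ ψ := ⟨φ.1 ≫ ψ.1, by
    rw [𝕏.map_comp, NatTrans.comp_app_apply, φ.2, ψ.2]⟩
  id_comp f := Subtype.ext (Category.id_comp _)
  comp_id f := Subtype.ext (Category.comp_id _)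
  assoc f g h := Subtype.ext (Category.assoc _ _ _)

include hγ in
theorem Gr.cocone_apply {l m : I} (f : l ⟶ m) (s : Sᵒᵖ) (x : (𝕏.obj l).obj s) :
    (γ m).app s ((𝕏.map f).app s x) = (γ l).app s x := by
  rw [← hγ f, NatTrans.comp_app_apply]

/-- The projection to the category of elements of `P`. -/
def Gr.toP : Gr 𝕏 ⥤ El P where
  obj a := ⟨a.s, (γ a.l).app _ a.x⟩
  map {a b} f := ⟨f.1.2, by
    have h2 := f.2
    show P.map f.1.2.op ((γ b.l).app _ b.x) = (γ a.l).app _ a.x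
    rw [← NatTrans.naturality_apply, ← h2, Gr.cocone_apply γ hγ]⟩
  map_id _ := El.hom_ext rfl
  map_comp _ _ := El.hom_ext rfl

/-- The inclusion of the fibre into the comma category. -/
def Gr.inc (e : El P) : Fb γ e ⥤ StructuredArrow e (Gr.toP γ hγ) where
  obj a := StructuredArrow.mk (Y := (⟨a.l, e.s, a.x⟩ : Gr 𝕏))
    (⟨𝟙 e.s, by
      show P.map (𝟙 e.s).op ((γ a.l).app _ a.x) = e.x
      rw [a.h]; simp⟩ : e ⟶ (Gr.toP γ hγ).obj ⟨a.l, e.s, a.x⟩)
  map {a b} f := StructuredArrow.homMk (⟨(f.1, 𝟙 e.s), by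
    show (𝕏.map f.1).app _ a.x = (𝕏.obj b.l).map (𝟙 e.s).op b.x
    rw [f.2]; simp⟩ : (⟨a.l, e.s, a.x⟩ : Gr 𝕏) ⟶ ⟨b.l, e.s, b.x⟩)
      (El.hom_ext (Category.comp_id _))
  map_id a := by
    apply StructuredArrow.hom_ext
    exact Gr.hom_ext rfl rfl
  map_comp f g := by
    apply StructuredArrow.hom_ext
    exact Gr.hom_ext rfl (Category.comp_id _).symm

/-- The pull-back from the comma category to the fibre. -/
def Gr.pull (e : El P) : StructuredArrow e (Gr.toP γ hγ) ⥤ Fb γ e where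
  obj a := ⟨a.right.l, (𝕏.obj a.right.l).map a.hom.1.op a.right.x, by
    have h : P.map a.hom.1.op ((γ a.right.l).app _ a.right.x) = e.x := a.hom.2
    rw [NatTrans.naturality_apply, h]⟩
  map {a b} f := ⟨f.right.1.1,
    Gr.aux_pull 𝕏 f.right.1.1 a.hom.1 f.right.1.2 b.hom.1
      (congrArg Subtype.val (StructuredArrow.w f)) _ _ f.right.2⟩
  map_id _ := Subtype.ext rfl
  map_comp _ _ := Subtype.ext rfl

/-- The adjunction between the inclusion of the fibre and the pull-back. -/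
def Gr.adj' (e : El P) : Gr.inc γ hγ e ⊣ Gr.pull γ hγ e :=
  Adjunction.mkOfHomEquiv
    { homEquiv := fun a b =>
        { toFun := fun g => ⟨g.right.1.1,
            Gr.aux_pull' 𝕏 g.right.1.1 g.right.1.2 b.hom.1
              (congrArg Subtype.val (StructuredArrow.w g)) _ _ g.right.2⟩
          invFun := fun f => StructuredArrow.homMk (⟨(f.1, b.hom.1), f.2⟩ :
            (⟨a.l, e.s, a.x⟩ : Gr 𝕏) ⟶ b.right) (El.hom_ext (Category.id_comp _))
          left_inv := fun g => by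
            apply StructuredArrow.hom_ext
            have h1 : 𝟙 e.s ≫ g.right.1.2 = b.hom.1 := congrArg Subtype.val (StructuredArrow.w g)
            exact Gr.hom_ext rfl (h1.symm.trans (Category.id_comp _))
          right_inv := fun f => Subtype.ext rfl }
      homEquiv_naturality_left_symm := fun f g => by
        apply StructuredArrow.hom_ext
        exact Gr.hom_ext rfl (Category.id_comp _).symm
      homEquiv_naturality_right := fun f g => Subtype.ext rfl }

include hγ in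
/-- **Gluing.** If the index category and all the `𝕏 l` are aspherical and all the fibres of
`𝕏 → P` are aspherical then `P` is aspherical. -/
theorem El.asph_of_diagram (L : BasicLocalizer.{u}) (hI : L.Asph I)
    (h : ∀ l, L.Asph (El (𝕏.obj l))) (hF : ∀ e : El P, L.Asph (Fb γ e)) : L.Asph (El P) := by
  refine (L.asph_iff (F := Gr.toP γ hγ) (L.theoremA' _ fun e => ?_)).mp (Gr.asph 𝕏 L hI h)
  exact (L.asph_iff (L.of_leftAdjoint (Gr.adj' γ hγ e))).mp (hF e)

end Gr

end Pool.Agent.J4.H13.PM
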