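import Mathlib

/-!
# Basic localizers: elementary consequences of the axioms
-/

set_option autoImplicit false

universe u

namespace Pool.Agent.J4.H13.PM

open CategoryTheory CategoryTheory.Limits

/-- A basic localizer (Grothendieck, Cisinski) in the absolute form: a class of functors between small
categories with the two-out-of-three property, closed under the retract condition, containing
`A ⥤ pt` for every `A` with a terminal object, and satisfying Quillen's Theorem A and its dual. -/
structure BasicLocalizer where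
  /-- the class of functors -/
  W : ∀ {A B : Type u} [SmallCategory A] [SmallCategory B], (A ⥤ B) → Prop
  id_mem : ∀ (A : Type u) [SmallCategory A], W (𝟭 A)
  comp_mem : ∀ {A B C : Type u} [SmallCategory A] [SmallCategory B] [SmallCategory C]
    (F : A ⥤ B) (G : B ⥤ C), W F → W G → W (F ⋙ G)
  of_comp_right : ∀ {A B C : Type u} [SmallCategory A] [SmallCategory B] [SmallCategory C]
    (F : A ⥤ B) (G : B ⥤ C), W G → W (F ⋙ G) → W F
  of_comp_left : ∀ {A B C : Type u} [SmallCategory A] [SmallCategory B] [SmallCategory C]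
    (F : A ⥤ B) (G : B ⥤ C), W F → W (F ⋙ G) → W G
  retract : ∀ {A B : Type u} [SmallCategory A] [SmallCategory B] (I : A ⥤ B) (R : B ⥤ A),
    I ⋙ R = 𝟭 A → W (R ⋙ I) → W R
  terminal : ∀ (A : Type u) [SmallCategory A] (t : A), Nonempty (IsTerminal t) →
    W (Functor.star.{u} A)
  theoremA : ∀ {A B : Type u} [SmallCategory A] [SmallCategory B] (F : A ⥤ B),
    (∀ b : B, W (Functor.star.{u} (CostructuredArrow F b))) → W F
  theoremA' : ∀ {A B : Type u} [SmallCategory A] [SmallCategory B] (F : A ⥤ B),
    (∀ b : B, W (Functor.star.{u} (StructuredArrow b F))) → W F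

namespace BasicLocalizer

variable (L : BasicLocalizer.{u})

/-- `A` is aspherical for `L`. -/
def Asph (A : Type u) [SmallCategory A] : Prop := L.W (Functor.star.{u} A)

section
variable {A B C : Type u} [SmallCategory A] [SmallCategory B] [SmallCategory C]

theorem comp_star (F : A ⥤ B) : F ⋙ Functor.star.{u} B = Functor.star.{u} A :=
  Functor.punit_ext' _ _

theorem asph_iff {F : A ⥤ B} (h : L.W F) : L.Asph A ↔ L.Asph B := by
  unfold Asph
  rw [← comp_star F]
  exact ⟨fun h' => L.of_comp_left _ _ h h', fun h' => L.comp_mem _ _ h h'⟩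

theorem asph_of_isTerminal {t : A} (h : IsTerminal t) : L.Asph A := L.terminal A t ⟨h⟩

theorem of_asph {F : A ⥤ B} (hA : L.Asph A) (hB : L.Asph B) : L.W F := by
  unfold Asph at hA hB
  rw [← comp_star F] at hA
  exact L.of_comp_right _ _ hB hA

/-- The point is aspherical. -/
theorem asph_punit : L.Asph (Discrete PUnit.{u+1}) := by
  unfold Asph
  have : Functor.star.{u} (Discrete PUnit.{u+1}) = 𝟭 _ := Functor.punit_ext' _ _
  rw [this]
  exact L.id_mem _

theorem asph_of_isInitial {t : A} (h : IsInitial t) : L.Asph A := by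
  have h1 : L.W (Functor.fromPUnit.{u} t) := by
    apply L.theoremA
    intro b
    refine L.terminal _ (CostructuredArrow.mk (Y := (⟨⟨⟩⟩ : Discrete PUnit.{u+1})) (h.to b)) ⟨?_⟩
    refine IsTerminal.ofUniqueHom (fun X => CostructuredArrow.homMk (𝟙 _) (h.hom_ext _ _))
      (fun X m => ?_)
    ext
    exact Subsingleton.elim _ _
  exact (L.asph_iff h1).mp L.asph_punit

theorem of_leftAdjoint {F : A ⥤ B} {G : B ⥤ A} (adj : F ⊣ G) : L.W F :=
  L.theoremA F (fun b => L.asph_of_isTerminal (mkTerminalOfRightAdjoint _ adj b))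

theorem of_rightAdjoint {F : A ⥤ B} {G : B ⥤ A} (adj : F ⊣ G) : L.W G :=
  L.theoremA' G (fun b => L.asph_of_isInitial (mkInitialOfLeftAdjoint _ adj b))

theorem of_isEquivalence (F : A ⥤ B) [F.IsEquivalence] : L.W F :=
  L.of_leftAdjoint F.asEquivalence.toAdjunction

theorem leftFunc_mem (B : Type u) [SmallCategory B] : L.W (Arrow.leftFunc : Arrow B ⥤ B) := by
  apply L.theoremA'
  intro b
  refine L.asph_of_isInitial (t := StructuredArrow.mk (Y := Arrow.mk (𝟙 b)) (𝟙 b)) ?_
  refine IsInitial.ofUniqueHom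
    (fun X => StructuredArrow.homMk
      (Arrow.homMk X.hom (X.hom ≫ X.right.hom) (Category.id_comp _).symm) (Category.id_comp _))
    (fun X m => ?_)
  have h1 : m.right.left = X.hom := (Category.id_comp _).symm.trans (StructuredArrow.w m)
  have h2 : m.right.left ≫ X.right.hom = 𝟙 b ≫ m.right.right := m.right.w
  ext
  · exact h1
  · have h3 : m.right.right = X.hom ≫ X.right.hom :=
      ((Category.id_comp _).symm.trans h2.symm).trans (congrArg (· ≫ X.right.hom) h1)
    exact h3

theorem mem_iff_of_natTrans {F G : A ⥤ B} (α : F ⟶ G) : L.W F ↔ L.W G := by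
  let δ : B ⥤ Arrow B :=
    { obj := fun b => Arrow.mk (𝟙 b)
      map := fun f => Arrow.homMk f f (by simp) }
  let T : A ⥤ Arrow B :=
    { obj := fun a => Arrow.mk (α.app a)
      map := fun f => Arrow.homMk (F.map f) (G.map f) (by simp) }
  have hδl : δ ⋙ Arrow.leftFunc = 𝟭 B := rfl
  have hδr : δ ⋙ Arrow.rightFunc = 𝟭 B := rfl
  have hTl : T ⋙ Arrow.leftFunc = F := rfl
  have hTr : T ⋙ Arrow.rightFunc = G := rfl
  have hl : L.W (Arrow.leftFunc : Arrow B ⥤ B) := L.leftFunc_mem B
  have hδ : L.W δ := L.of_comp_right δ Arrow.leftFunc hl (by rw [hδl]; exact L.id_mem B)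
  have hr : L.W (Arrow.rightFunc : Arrow B ⥤ B) :=
    L.of_comp_left δ Arrow.rightFunc hδ (by rw [hδr]; exact L.id_mem B)
  constructor
  · intro h
    rw [← hTr]
    exact L.comp_mem _ _ (L.of_comp_right T Arrow.leftFunc hl (by rw [hTl]; exact h)) hr
  · intro h
    rw [← hTl]
    exact L.comp_mem _ _ (L.of_comp_right T Arrow.rightFunc hr (by rw [hTr]; exact h)) hl

/-- A category with an object `c₀` and an endofunctor `Φ` with natural transformations to the identity
and to the constant functor `c₀` is aspherical. -/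
theorem asph_of_contraction (c₀ : A) (Φ : A ⥤ A) (α : Φ ⟶ 𝟭 A)
    (β : Φ ⟶ Functor.star.{u} A ⋙ Functor.fromPUnit.{u} c₀) : L.Asph A := by
  apply L.retract (Functor.fromPUnit.{u} c₀) (Functor.star.{u} A) (Functor.punit_ext' _ _)
  rw [← L.mem_iff_of_natTrans β, L.mem_iff_of_natTrans α]
  exact L.id_mem A

theorem asph_of_thin [Quiver.IsThin A] (c₀ : A) (N : A → Prop)
    (h1 : ∀ x : A, ∃ y : A, N y ∧ Nonempty (y ⟶ x) ∧
      ∀ z : A, N z → Nonempty (z ⟶ x) → Nonempty (z ⟶ y))
    (h2 : ∀ y : A, N y → Nonempty (y ⟶ c₀)) : L.Asph A := by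
  choose φ hN hφ hφ' using h1
  let Φ : A ⥤ A :=
    { obj := φ
      map := fun {x y} f => (hφ' y (φ x) (hN x) ⟨(hφ x).some ≫ f⟩).some
      map_id := fun _ => Subsingleton.elim _ _
      map_comp := fun _ _ => Subsingleton.elim _ _ }
  exact L.asph_of_contraction c₀ Φ
    { app := fun x => (hφ x).some
      naturality := fun _ _ _ => Subsingleton.elim _ _ }
    { app := fun x => (h2 (φ x) (hN x)).some
      naturality := fun _ _ _ => Subsingleton.elim _ _ }

end

end BasicLocalizer

/-- The smallest basic localizer. -/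
def minLocalizer : BasicLocalizer.{u} where
  W F := ∀ L : BasicLocalizer.{u}, L.W F
  id_mem A _ L := L.id_mem A
  comp_mem F G hF hG L := L.comp_mem F G (hF L) (hG L)
  of_comp_right F G hG h L := L.of_comp_right F G (hG L) (h L)
  of_comp_left F G hF h L := L.of_comp_left F G (hF L) (h L)
  retract I R h h' L := L.retract I R h (h' L)
  terminal A _ t ht L := L.terminal A t ht
  theoremA F h L := L.theoremA F (fun b => h b L)
  theoremA' F h L := L.theoremA' F (fun b => h b L)

end Pool.Agent.J4.H13.PM
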