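import Pool.Agent.J4.H13.PM.Fac

/-!
# Presheaves of bounded size
-/

set_option autoImplicit false
set_option linter.unusedVariables false

universe u

namespace Pool.Agent.J4.H13.PM

open CategoryTheory CategoryTheory.Limits Opposite Cardinal

/-- All the morphisms of a small category. -/
abbrev Arr (S : Type u) [SmallCategory S] : Type u := Σ (s t : S), (s ⟶ t)

/-- A set which is large enough. -/
abbrev Om (S : Type u) [SmallCategory S] : Type u := Set (ULift.{u} ℕ ⊕ Arr S)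

section

variable {S : Type u} [SmallCategory S]

variable (S) in
theorem aleph0_le : ℵ₀ ≤ #(ULift.{u} ℕ ⊕ Arr S) := by
  rw [Cardinal.mk_sum]
  simp

variable (S) in
theorem mk_Om : #(Om S) = 2 ^ #(ULift.{u} ℕ ⊕ Arr S) := Cardinal.mk_set

variable (S) in
theorem le_Om : #(ULift.{u} ℕ ⊕ Arr S) ≤ #(Om S) := by
  rw [mk_Om]
  exact (Cardinal.cantor _).le

variable (S) in
theorem aleph0_le_Om : ℵ₀ ≤ #(Om S) := (aleph0_le S).trans (le_Om S)

/-- Presheaves whose values have at most the cardinality of `Om S`. -/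
def Sm (X : Sᵒᵖ ⥤ Type u) : Prop := ∀ s, #(X.obj s) ≤ #(Om S)

theorem Sm.yoneda (s : S) : Sm (yoneda.obj s) := by
  intro t
  refine le_trans ?_ (le_Om S)
  refine Cardinal.mk_le_of_injective
    (f := fun g : t.unop ⟶ s => Sum.inr (⟨t.unop, s, g⟩ : Arr S)) ?_
  intro g h hgh
  simpa using hgh

theorem Sm.pow_le (B : Type u) (hB : #B ≤ #(ULift.{u} ℕ ⊕ Arr S)) :
    #(B → Option (Om S)) ≤ #(Om S) := by
  have h0 := aleph0_le S
  have h1 : #(Option (Om S)) = #(Om S) := by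
    rw [Cardinal.mk_option, Cardinal.add_one_eq (aleph0_le_Om S)]
  have h2 : #(B → Option (Om S)) = #(Om S) ^ #B := by
    rw [← h1, Cardinal.power_def]
  rw [h2, mk_Om, ← Cardinal.power_mul]
  refine Cardinal.power_le_power_left two_ne_zero ?_
  calc #(ULift.{u} ℕ ⊕ Arr S) * #B ≤ #(ULift.{u} ℕ ⊕ Arr S) * #(ULift.{u} ℕ ⊕ Arr S) :=
        mul_le_mul_right hB _
    _ = #(ULift.{u} ℕ ⊕ Arr S) := Cardinal.mul_eq_self h0

theorem Sm.EJ {X Y : Sᵒᵖ ⥤ Type u} (hX : Sm X) (hY : Sm Y) : Sm (EJ X Y) := by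
  intro s
  show #((Y.obj s) × (∀ t : S, (t ⟶ s.unop) → Option (X.obj (op t)))) ≤ _
  have e0 : ∀ t : S, Nonempty (X.obj (op t) ↪ Om S) := fun t => hX (op t)
  let e : ∀ t : S, X.obj (op t) ↪ Om S := fun t => (e0 t).some
  have h1 : #(∀ t : S, (t ⟶ s.unop) → Option (X.obj (op t))) ≤
      #((Σ t : S, (t ⟶ s.unop)) → Option (Om S)) := by
    refine Cardinal.mk_le_of_injective (f := fun φ p => (φ p.1 p.2).map (e p.1)) ?_
    intro φ ψ h
    funext t g
    exact Option.map_injective (e t).injective (congrFun h ⟨t, g⟩)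
  have h2 : #(Σ t : S, (t ⟶ s.unop)) ≤ #(ULift.{u} ℕ ⊕ Arr S) := by
    refine Cardinal.mk_le_of_injective (f := fun p => Sum.inr (⟨p.1, s.unop, p.2⟩ : Arr S)) ?_
    rintro ⟨t, g⟩ ⟨t', g'⟩ h
    simp only [Sum.inr.injEq, Sigma.mk.injEq] at h
    obtain ⟨rfl, h⟩ := h
    simpa using h
  rw [Cardinal.mk_prod, Cardinal.lift_id, Cardinal.lift_id]
  calc #(Y.obj s) * #(∀ t : S, (t ⟶ s.unop) → Option (X.obj (op t)))
      ≤ #(Om S) * #(Om S) := mul_le_mul' (hY s) (h1.trans (Sm.pow_le _ h2))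
    _ = #(Om S) := Cardinal.mul_eq_self (aleph0_le_Om S)

theorem Sm.of_isPushout {A B C P : Sᵒᵖ ⥤ Type u} {i : A ⟶ B} {f : A ⟶ C} {r : B ⟶ P} {b : C ⟶ P}
    (h : IsPushout i f r b) (hB : Sm B) (hC : Sm C) : Sm P := by
  intro s
  have hp : IsPushout (i.app s) (f.app s) (r.app s) (b.app s) := h.map ((evaluation _ _).obj s)
  have h1 : #(P.obj s) ≤ #(B.obj s ⊕ C.obj s) := by
    refine Cardinal.mk_le_of_surjective (f := Sum.elim (r.app s) (b.app s)) ?_
    intro x
    rcases Types.eq_or_eq_of_isPushout hp x with ⟨y, hy⟩ | ⟨y, hy⟩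
    · exact ⟨Sum.inl y, hy⟩
    · exact ⟨Sum.inr y, hy⟩
  refine h1.trans ?_
  rw [Cardinal.mk_sum, Cardinal.lift_id, Cardinal.lift_id]
  calc #(B.obj s) + #(C.obj s) ≤ #(Om S) + #(Om S) := add_le_add (hB s) (hC s)
    _ = #(Om S) := Cardinal.add_eq_self (aleph0_le_Om S)

theorem Sm.of_isPullback {A B C P : Sᵒᵖ ⥤ Type u} {a : P ⟶ A} {b : P ⟶ B} {f : A ⟶ C} {g : B ⟶ C}
    (h : IsPullback a b f g) (hA : Sm A) (hB : Sm B) : Sm P := by
  intro s
  have hp : IsPullback (a.app s) (b.app s) (f.app s) (g.app s) := h.map ((evaluation _ _).obj s)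
  have h1 : #(P.obj s) ≤ #(A.obj s × B.obj s) := by
    refine Cardinal.mk_le_of_injective (f := fun x => (a.app s x, b.app s x)) ?_
    intro x y hxy
    exact Types.ext_of_isPullback hp (congrArg Prod.fst hxy) (congrArg Prod.snd hxy)
  refine h1.trans ?_
  rw [Cardinal.mk_prod, Cardinal.lift_id, Cardinal.lift_id]
  calc #(A.obj s) * #(B.obj s) ≤ #(Om S) * #(Om S) := mul_le_mul' (hA s) (hB s)
    _ = #(Om S) := Cardinal.mul_eq_self (aleph0_le_Om S)

variable (S) in
/-- The category of the subsets of `Om S` and all maps. -/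
abbrev Tm : Type u := InducedCategory (Type u) (fun s : Set (Om S) => (↥s : Type u))

variable (S) in
/-- The inclusion in the category of sets. -/
abbrev Tm.F : Tm S ⥤ Type u := inducedFunctor _

theorem Tm.mem_essImage (X : Type u) (h : #X ≤ #(Om S)) : (Tm.F S).essImage X := by
  obtain ⟨e⟩ := h
  exact ⟨(Set.range e : Set (Om S)), ⟨(Equiv.ofInjective e e.injective).symm.toIso⟩⟩

variable (S) in
/-- The category `M` of the aspherical presheaves of bounded size. -/
abbrev MM (L : BasicLocalizer.{u}) : Type u :=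
  ObjectProperty.FullSubcategory (fun X : Sᵒᵖ ⥤ Tm S => L.Asph (El (X ⋙ Tm.F S)))

/-- The inclusion in the category of presheaves. -/
abbrev MM.ι (L : BasicLocalizer.{u}) : MM S L ⥤ (Sᵒᵖ ⥤ Type u) :=
  ObjectProperty.ι _ ⋙ (Functor.whiskeringRight _ _ _).obj (Tm.F S)

theorem MM.mem_essImage (L : BasicLocalizer.{u}) (X : Sᵒᵖ ⥤ Type u) (h : Sm X)
    (hL : L.Asph (El X)) : (MM.ι (S := S) L).essImage X := by
  let X' : Sᵒᵖ ⥤ Tm S := Functor.essImage.liftFunctor X (Tm.F S) (fun s => Tm.mem_essImage _ (h s))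
  let e : X' ⋙ Tm.F S ≅ X := Functor.essImage.liftFunctorCompIso X (Tm.F S) _
  exact ⟨⟨X', El.asph_of_iso L e.symm hL⟩, ⟨e⟩⟩

theorem MM.sm (L : BasicLocalizer.{u}) (X : MM S L) : Sm ((MM.ι L).obj X) := fun s =>
  Cardinal.mk_set_le _

theorem MM.asph (L : BasicLocalizer.{u}) (X : MM S L) : L.Asph (El ((MM.ι L).obj X)) := X.property

example (L : BasicLocalizer.{u}) : (MM.ι (S := S) L).Full := inferInstance
example (L : BasicLocalizer.{u}) : (MM.ι (S := S) L).Faithful := inferInstance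
example (L : BasicLocalizer.{u}) : SmallCategory (MM S L) := inferInstance

end

end Pool.Agent.J4.H13.PM
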