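import Pool.Agent.J4.H13.PM.Loc

/-!
# Transfer along fully faithful functors
-/

set_option autoImplicit false
set_option linter.unusedVariables false

universe u v w

namespace Pool.Agent.J4.H13.PM

open CategoryTheory CategoryTheory.Limits

section

variable {M : Type*} [Category* M] {P : Type*} [Category* P] (ι : M ⥤ P) [ι.Full] [ι.Faithful]

theorem lift_isPushout {A B C : M} (i : A ⟶ B) (f : A ⟶ C) {Q : P} (r₀ : ι.obj B ⟶ Q)
    (b₀ : ι.obj C ⟶ Q) (h : IsPushout (ι.map i) (ι.map f) r₀ b₀) (hQ : ι.essImage Q) :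
    ∃ (R : M) (r : B ⟶ R) (b : C ⟶ R) (e : ι.obj R ≅ Q), IsPushout i f r b ∧
      ι.map b ≫ e.hom = b₀ := by
  obtain ⟨R, ⟨e⟩⟩ := hQ
  have h1 : IsPushout (ι.map i) (ι.map f) (ι.map (ι.preimage (r₀ ≫ e.inv)))
      (ι.map (ι.preimage (b₀ ≫ e.inv))) := by
    refine h.of_iso (Iso.refl _) (Iso.refl _) (Iso.refl _) e.symm ?_ ?_ ?_ ?_ <;> simp
  refine ⟨R, ι.preimage (r₀ ≫ e.inv), ι.preimage (b₀ ≫ e.inv), e, ?_, by simp⟩
  refine IsPushout.of_map ι (ι.map_injective ?_) h1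
  rw [ι.map_comp, ι.map_comp]
  exact h1.w

theorem lift_isPullback {A B C : M} (f : A ⟶ C) (g : B ⟶ C) {Q : P} (a₀ : Q ⟶ ι.obj A)
    (b₀ : Q ⟶ ι.obj B) (h : IsPullback a₀ b₀ (ι.map f) (ι.map g)) (hQ : ι.essImage Q) :
    ∃ (R : M) (a : R ⟶ A) (b : R ⟶ B) (e : ι.obj R ≅ Q), IsPullback a b f g ∧
      e.hom ≫ b₀ = ι.map b := by
  obtain ⟨R, ⟨e⟩⟩ := hQ
  have h1 : IsPullback (ι.map (ι.preimage (e.hom ≫ a₀))) (ι.map (ι.preimage (e.hom ≫ b₀)))
      (ι.map f) (ι.map g) := by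
    refine h.of_iso e.symm (Iso.refl _) (Iso.refl _) (Iso.refl _) ?_ ?_ ?_ ?_ <;> simp
  refine ⟨R, ι.preimage (e.hom ≫ a₀), ι.preimage (e.hom ≫ b₀), e, ?_, by simp⟩
  refine IsPullback.of_map ι (ι.map_injective ?_) h1
  rw [ι.map_comp, ι.map_comp]
  exact h1.w

variable (C₀ F₀ : MorphismProperty P)

theorem pushouts_of [C₀.RespectsIso] (h : ∀ {A B C : M} (i : A ⟶ B) (f : A ⟶ C), C₀ (ι.map i) →
    ∃ (Q : P) (r₀ : ι.obj B ⟶ Q) (b₀ : ι.obj C ⟶ Q), IsPushout (ι.map i) (ι.map f) r₀ b₀ ∧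
      ι.essImage Q ∧ C₀ b₀) :
    (∀ {A B C : M} (i : A ⟶ B) (f : A ⟶ C), (C₀.inverseImage ι) i → HasPushout i f) ∧
      (C₀.inverseImage ι).IsStableUnderCobaseChange := by
  refine ⟨fun i f hi => ?_, ⟨fun {A A' B B' f g f' g'} sq hf => ?_⟩⟩
  · obtain ⟨Q, r₀, b₀, h1, h2, h3⟩ := h i f hi
    obtain ⟨R, r, b, e, h4, h5⟩ := lift_isPushout ι i f r₀ b₀ h1 h2
    exact h4.hasPushout
  · -- `sq : IsPushout g f f' g'`, `f' : B ⟶ B'`
    obtain ⟨Q, r₀, b₀, h1, h2, h3⟩ := h f g hf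
    obtain ⟨R, r, b, e, h4, h5⟩ := lift_isPushout ι f g r₀ b₀ h1 h2
    have h6 : f' ≫ (sq.flip.isoIsPushout _ _ h4).hom = b := IsPushout.inr_isoIsPushout_hom _ _ _ _
    show C₀ (ι.map f')
    have h7 : ι.map f' ≫ (ι.mapIso (sq.flip.isoIsPushout _ _ h4) ≪≫ e).hom = b₀ := by
      have h8 : ι.map f' ≫ ι.map (sq.flip.isoIsPushout _ _ h4).hom = ι.map b := by
        rw [← ι.map_comp, h6]
      rw [Iso.trans_hom, Functor.mapIso_hom, ← Category.assoc, h8, h5]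
    rw [← h7] at h3
    exact (C₀.cancel_right_of_respectsIso _ _).mp h3

theorem pullbacks_of [F₀.RespectsIso] (h : ∀ {A B C : M} (f : A ⟶ C) (g : B ⟶ C), F₀ (ι.map f) →
    ∃ (Q : P) (a₀ : Q ⟶ ι.obj A) (b₀ : Q ⟶ ι.obj B), IsPullback a₀ b₀ (ι.map f) (ι.map g) ∧
      ι.essImage Q ∧ F₀ b₀) :
    (∀ {A B C : M} (f : A ⟶ C) (g : B ⟶ C), (F₀.inverseImage ι) f → HasPullback f g) ∧
      (F₀.inverseImage ι).IsStableUnderBaseChange := by
  refine ⟨fun f g hf => ?_, ⟨fun {X Y Y' S f g f' g'} sq hg => ?_⟩⟩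
  · obtain ⟨Q, r₀, b₀, h1, h2, h3⟩ := h f g hf
    obtain ⟨R, r, b, e, h4, h5⟩ := lift_isPullback ι f g r₀ b₀ h1 h2
    exact h4.hasPullback
  · -- `sq : IsPullback f' g' g f`
    obtain ⟨Q, r₀, b₀, h1, h2, h3⟩ := h g f hg
    obtain ⟨R, r, b, e, h4, h5⟩ := lift_isPullback ι g f r₀ b₀ h1 h2
    have h6 : (sq.isoIsPullback _ _ h4).inv ≫ g' = b := IsPullback.isoIsPullback_inv_snd _ _ _ _
    show F₀ (ι.map g')
    have h7 : (e.symm ≪≫ (ι.mapIso (sq.isoIsPullback _ _ h4)).symm).hom ≫ ι.map g' = b₀ := by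
      have h8 : ι.map (sq.isoIsPullback _ _ h4).inv ≫ ι.map g' = ι.map b := by
        rw [← ι.map_comp, h6]
      simp [h8, ← h5]
    rw [← h7] at h3
    exact (F₀.cancel_left_of_respectsIso _ _).mp h3

theorem comp4 {A B C D E F : P} (a : A ⟶ B) (b : B ⟶ C) (c : C ⟶ D) (d : A ⟶ E) (f : E ⟶ C)
    (g : E ⟶ F) (h : F ⟶ D) (h1 : a ≫ b = d ≫ f) (h2 : f ≫ c = g ≫ h) :
    a ≫ (b ≫ c) = (d ≫ g) ≫ h := by
  rw [← Category.assoc, h1, Category.assoc, h2, Category.assoc]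

theorem comp5 {A B C D : P} (a : A ⟶ B) (b : B ⟶ C) (c : C ⟶ B) (d : B ⟶ D) (h : b ≫ c = 𝟙 B) :
    (a ≫ b) ≫ (c ≫ d) = a ≫ d := by
  rw [Category.assoc, ← Category.assoc b, h, Category.id_comp]

/-- Transfer of functorial factorizations along fully faithful functors. -/
theorem fact_of [C₀.RespectsIso] [F₀.RespectsIso] (D : MorphismProperty.FunctorialFactorizationData C₀ F₀)
    (h : ∀ f : Arrow M, ι.essImage (D.Z.obj (ι.mapArrow.obj f))) :
    Nonempty (MorphismProperty.FunctorialFactorizationData (C₀.inverseImage ι)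
      (F₀.inverseImage ι)) := by
  let Z : Arrow M ⥤ M := Functor.essImage.liftFunctor (ι.mapArrow ⋙ D.Z) ι h
  let e : Z ⋙ ι ≅ ι.mapArrow ⋙ D.Z := Functor.essImage.liftFunctorCompIso (ι.mapArrow ⋙ D.Z) ι h
  have e1 : ∀ {f g : Arrow M} (φ : f ⟶ g), ι.map (Z.map φ) ≫ e.hom.app g =
      e.hom.app f ≫ D.Z.map (ι.mapArrow.map φ) := fun φ => e.hom.naturality φ
  have e2 : ∀ {f g : Arrow M} (φ : f ⟶ g), D.Z.map (ι.mapArrow.map φ) ≫ e.inv.app g =
      e.inv.app f ≫ ι.map (Z.map φ) := fun φ => e.inv.naturality φ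
  have d1 : ∀ {f g : Arrow M} (φ : f ⟶ g), ι.map φ.left ≫ D.i.app (ι.mapArrow.obj g) =
      D.i.app (ι.mapArrow.obj f) ≫ D.Z.map (ι.mapArrow.map φ) :=
    fun φ => D.i.naturality (ι.mapArrow.map φ)
  have d2 : ∀ {f g : Arrow M} (φ : f ⟶ g), D.Z.map (ι.mapArrow.map φ) ≫
      D.p.app (ι.mapArrow.obj g) = D.p.app (ι.mapArrow.obj f) ≫ ι.map φ.right :=
    fun φ => D.p.naturality (ι.mapArrow.map φ)
  refine ⟨{ Z := Z
            i := { app := fun f => ι.preimage (D.i.app (ι.mapArrow.obj f) ≫ e.inv.app f)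
                   naturality := ?_ }
            p := { app := fun f => ι.preimage (e.hom.app f ≫ D.p.app (ι.mapArrow.obj f))
                   naturality := ?_ }
            fac := ?_
            hi := ?_
            hp := ?_ }⟩
  · intro f g φ
    apply ι.map_injective
    rw [ι.map_comp, ι.map_comp, ι.map_preimage, ι.map_preimage]
    exact comp4 _ _ _ _ _ _ _ (d1 φ) (e2 φ)
  · intro f g φ
    apply ι.map_injective
    rw [ι.map_comp, ι.map_comp, ι.map_preimage, ι.map_preimage]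
    exact comp4 _ _ _ _ _ _ _ (e1 φ) (d2 φ)
  · ext f
    apply ι.map_injective
    have h1 := D.fac_app (f := ι.mapArrow.obj f)
    rw [NatTrans.comp_app, ι.map_comp, ι.map_preimage, ι.map_preimage]
    have h2 : e.inv.app f ≫ e.hom.app f = 𝟙 _ := e.inv_hom_id_app f
    exact (comp5 _ _ _ _ h2).trans h1
  · intro f
    show C₀ (ι.map (ι.preimage _))
    rw [ι.map_preimage]
    exact (C₀.cancel_right_of_respectsIso _ _).mpr (D.hi _)
  · intro f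
    show F₀ (ι.map (ι.preimage _))
    rw [ι.map_preimage]
    exact (F₀.cancel_left_of_respectsIso _ _).mpr (D.hp _)

end

end Pool.Agent.J4.H13.PM
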