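import Pool.Agent.J4.H13.PM.Push
import Pool.Agent.J4.H13.PM.Size
import Pool.Agent.J4.H13.PM.Tr

/-!
# The partial model structure and the Yoneda embedding
-/

set_option autoImplicit false
set_option linter.unusedVariables false

universe u

namespace Pool.Agent.J4.H13.PM

open CategoryTheory CategoryTheory.Limits Opposite

section

variable {S : Type u} [SmallCategory S]

/-- The class of morphisms all of whose pull-backs to aspherical presheaves are aspherical. -/
def FF (L : BasicLocalizer.{u}) : MorphismProperty (Sᵒᵖ ⥤ Type u) := fun E Y p =>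
  ∀ (Z : Sᵒᵖ ⥤ Type u) (g : Z ⟶ Y), L.Asph (El Z) →
    ∀ (Q : Sᵒᵖ ⥤ Type u) (a : Q ⟶ Z) (b : Q ⟶ E), IsPullback a b g p → L.Asph (El Q)

instance (L : BasicLocalizer.{u}) : (FF (S := S) L).IsStableUnderBaseChange where
  of_isPullback {X Y Y' T f g f' g'} sq hg := by
    intro Z k hZ Q a b h
    exact hg Z (k ≫ f) hZ Q a (b ≫ f') (by
      have := h.flip.paste_horiz sq
      exact this.flip)

instance (L : BasicLocalizer.{u}) : (FF (S := S) L).IsMultiplicative where
  id_mem X := by
    intro Z g hZ Q a b h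
    have : IsIso a := h.isIso_fst_of_isIso
    exact El.asph_of_iso L (asIso a).symm hZ
  comp_mem {X Y T} q p hq hp := by
    intro Z g hZ Q a b h
    obtain ⟨Q₁, a₁, b₁, h₁⟩ : ∃ (Q₁ : Sᵒᵖ ⥤ Type u) (a₁ : Q₁ ⟶ Z) (b₁ : Q₁ ⟶ Y),
        IsPullback a₁ b₁ g p := ⟨_, _, _, IsPullback.of_hasPullback g p⟩
    have hQ₁ : L.Asph (El Q₁) := hp Z g hZ Q₁ a₁ b₁ h₁
    have h2 := IsPullback.of_bot' h.flip h₁.flip
    exact hq Q₁ b₁ hQ₁ Q _ b h2.flip

theorem FF.respectsIso (L : BasicLocalizer.{u}) : (FF (S := S) L).RespectsIso := inferInstance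

/-- The comparison of the category of elements with the comma category of the Yoneda embedding. -/
def El.toCostr (X : Sᵒᵖ ⥤ Type u) : El X ⥤ CostructuredArrow yoneda X where
  obj a := CostructuredArrow.mk (yonedaEquiv.symm a.x)
  map {a b} f := CostructuredArrow.homMk f.1
    ((yonedaEquiv_symm_naturality_left f.1 X b.x).trans (congrArg yonedaEquiv.symm f.2))
  map_id a := by
    apply CostructuredArrow.hom_ext
    rfl
  map_comp f g := by
    apply CostructuredArrow.hom_ext
    rfl

instance (X : Sᵒᵖ ⥤ Type u) : (El.toCostr X).Faithful where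
  map_injective {a b f g} h := El.hom_ext (congrArg (fun k => k.left) h)

instance (X : Sᵒᵖ ⥤ Type u) : (El.toCostr X).Full where
  map_surjective {a b} k := by
    refine ⟨⟨k.left, ?_⟩, ?_⟩
    · have h1 : yoneda.map k.left ≫ yonedaEquiv.symm b.x = yonedaEquiv.symm a.x :=
        CostructuredArrow.w k
      have h2 := (yonedaEquiv_symm_naturality_left k.left X b.x).symm.trans h1
      exact yonedaEquiv.symm.injective h2
    · apply CostructuredArrow.hom_ext
      rfl

instance (X : Sᵒᵖ ⥤ Type u) : (El.toCostr X).EssSurj where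
  mem_essImage k := ⟨⟨k.left, yonedaEquiv k.hom⟩,
    ⟨CostructuredArrow.isoMk (Iso.refl _) (by
      show yoneda.map (𝟙 _) ≫ k.hom = yonedaEquiv.symm (yonedaEquiv k.hom)
      rw [Equiv.symm_apply_apply, yoneda.map_id, Category.id_comp])⟩⟩

instance (X : Sᵒᵖ ⥤ Type u) : (El.toCostr X).IsEquivalence where

/-- Representable presheaves are aspherical. -/
theorem El.asph_yoneda (L : BasicLocalizer.{u}) (s : S) : L.Asph (El (yoneda.obj s)) := by
  refine L.asph_of_isTerminal (t := (⟨s, 𝟙 s⟩ : El (yoneda.obj s))) ?_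
  refine IsTerminal.ofUniqueHom (fun a => ⟨a.x, ?_⟩) (fun a m => El.hom_ext ?_)
  · show (a.x : a.s ⟶ s) ≫ 𝟙 s = a.x
    exact Category.comp_id _
  · have h : m.1 ≫ 𝟙 s = a.x := m.2
    exact (Category.comp_id _).symm.trans h

variable (S) in
/-- The Yoneda embedding with values in `MM`. -/
noncomputable def yo (L : BasicLocalizer.{u}) : S ⥤ MM S L :=
  Functor.essImage.liftFunctor yoneda (MM.ι L) (fun s =>
    MM.mem_essImage L _ (Sm.yoneda s) (El.asph_yoneda L s))

variable (S) in
/-- The Yoneda embedding with values in `MM` composed with the inclusion. -/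
noncomputable def yoIso (L : BasicLocalizer.{u}) : yo S L ⋙ MM.ι L ≅ yoneda :=
  Functor.essImage.liftFunctorCompIso yoneda (MM.ι L) _

variable (S) in
theorem yo_mem (L : BasicLocalizer.{u}) : L.W (yo S L) := by
  apply L.theoremA
  intro X
  show L.Asph _
  have h1 : L.W (CostructuredArrow.post (yo S L) (MM.ι L) X) := L.of_isEquivalence _
  have h2 : L.W (CostructuredArrow.mapNatIso (T := (MM.ι L).obj X) (yoIso S L)).functor :=
    L.of_isEquivalence _
  rw [L.asph_iff h1, L.asph_iff h2, ← L.asph_iff (L.of_isEquivalence (El.toCostr _))]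
  exact MM.asph L X

theorem mono_of_isPushout {A B C P : Sᵒᵖ ⥤ Type u} {i : A ⟶ B} {f : A ⟶ C} {r : B ⟶ P} {b : C ⟶ P}
    (h : IsPushout i f r b) [hi : Mono i] : Mono b := by
  have h1 : ∀ s, Mono (b.app s) := by
    intro s
    have hp : IsPushout (i.app s) (f.app s) (r.app s) (b.app s) :=
      h.map ((evaluation _ _).obj s)
    have : Mono (i.app s) := inferInstance
    exact (mono_iff_injective _).mpr (Types.pushoutCocone_inr_injective_of_isColimit hp.isColimit
      (injective_of_mono _))
  exact NatTrans.mono_of_mono_app _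

/-- The functorial factorization in the category of presheaves. -/
def factData {D : Type u} [SmallCategory D] (L : BasicLocalizer.{u}) :
    MorphismProperty.FunctorialFactorizationData
      (MorphismProperty.monomorphisms ((Sh D)ᵒᵖ ⥤ Type u)) (FF (S := Sh D) L) where
  Z := EJ.functor (Sh D)
  i := EJ.inlNat (Sh D)
  p := EJ.fstNat (Sh D)
  fac := by
    ext f s x
    rfl
  hi f := by
    show Mono (EJ.inl f.hom)
    have : ∀ s, Mono ((EJ.inl f.hom).app s) := fun s =>
      (mono_iff_injective _).mpr (EJ.inl_injective f.hom s)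
    exact NatTrans.mono_of_mono_app _
  hp f := by
    intro Z g hZ Q a b h
    have h1 := EJ.isPullback f.left g
    exact El.asph_of_iso L (h1.isoIsPullback _ _ h) (EJ.asph L f.left Z hZ)

end

end Pool.Agent.J4.H13.PM
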