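import Pool.Agent.J4.H13.PM.Gr

/-!
# Pushouts along monomorphisms preserve aspherical presheaves
-/

set_option autoImplicit false
set_option linter.unusedVariables false

universe u

namespace Pool.Agent.J4.H13.PM

open CategoryTheory CategoryTheory.Limits Opposite

/-- The walking span in `Type u`. -/
inductive Sp : Type u
  | a | b | c

/-- The morphisms of the walking span. -/
inductive Sp.Hom : Sp.{u} → Sp.{u} → Type u
  | id (x : Sp.{u}) : Sp.Hom x x
  | ab : Sp.Hom .a .b
  | ac : Sp.Hom .a .c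

/-- Composition. -/
def Sp.Hom.comp : ∀ {x y z : Sp.{u}}, Sp.Hom x y → Sp.Hom y z → Sp.Hom x z
  | _, _, _, .id _, g => g
  | _, _, _, .ab, .id _ => .ab
  | _, _, _, .ac, .id _ => .ac

instance Sp.category : SmallCategory Sp.{u} where
  Hom := Sp.Hom
  id := Sp.Hom.id
  comp := Sp.Hom.comp
  id_comp f := by cases f <;> rfl
  comp_id f := by cases f <;> rfl
  assoc f g h := by cases f <;> cases g <;> cases h <;> rfl

theorem Sp.Hom.eq {x y : Sp.{u}} (f g : Sp.Hom x y) : f = g := by
  cases f <;> cases g <;> rfl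

instance Sp.thin : Quiver.IsThin Sp.{u} := fun x y => ⟨fun f g => Sp.Hom.eq f g⟩

theorem Sp.asph (L : BasicLocalizer.{u}) : L.Asph Sp.{u} :=
  L.asph_of_isInitial (t := Sp.a) (IsInitial.ofUniqueHom
    (fun x => match x with
      | .a => Sp.Hom.id _
      | .b => Sp.Hom.ab
      | .c => Sp.Hom.ac)
    (fun x m => Subsingleton.elim _ _))

theorem eq_of_isPushout {X₁ X₂ X₃ X₄ : Type u} {t : X₁ ⟶ X₂} {l : X₁ ⟶ X₃} {r : X₂ ⟶ X₄}
    {b : X₃ ⟶ X₄} (h : IsPushout t l r b) (x y : X₂) (hx : ∀ s, t s ≠ x) (hxy : r y = r x) :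
    y = x := by
  let k : X₂ ⟶ ULift.{u} Prop := ↾fun y => ULift.up (y = x)
  let k' : X₃ ⟶ ULift.{u} Prop := ↾fun _ => ULift.up False
  have hk : t ≫ k = l ≫ k' := by
    apply ConcreteCategory.hom_ext
    intro s
    show ULift.up (t s = x) = ULift.up False
    rw [eq_false (hx s)]
  have h1 : ∀ z, h.desc k k' hk (r z) = ULift.up (z = x) := fun z =>
    types_congr_hom (h.inl_desc k k' hk) z
  have h2 : (ULift.up (y = x) : ULift.{u} Prop) = ULift.up (x = x) := by
    rw [← h1 y, ← h1 x, hxy]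
  have h3 : (y = x) = (x = x) := congrArg ULift.down h2
  rw [h3]

section

variable {S : Type u} [SmallCategory S] {A B C P : Sᵒᵖ ⥤ Type u} (i : A ⟶ B) (f : A ⟶ C)

/-- A span of presheaves as a functor. -/
def spanFun : Sp.{u} ⥤ (Sᵒᵖ ⥤ Type u) where
  obj
    | .a => A
    | .b => B
    | .c => C
  map {x y} φ := match x, y, φ with
    | _, _, .id x => 𝟙 _
    | _, _, .ab => i
    | _, _, .ac => f
  map_id x := by cases x <;> rfl
  map_comp {x y z} φ ψ := by
    change Sp.Hom x y at φ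
    change Sp.Hom y z at ψ
    cases φ
    · exact (Category.id_comp _).symm
    · cases ψ
      exact (Category.comp_id _).symm
    · cases ψ
      exact (Category.comp_id _).symm

variable (r : B ⟶ P) (b : C ⟶ P)

/-- The cocone over the span. -/
def spanCocone : ∀ l : Sp.{u}, (spanFun i f).obj l ⟶ P
  | .a => i ≫ r
  | .b => r
  | .c => b

variable {i f r b}

theorem spanCocone_w (hw : i ≫ r = f ≫ b) {l m : Sp.{u}} (φ : l ⟶ m) :
    (spanFun i f).map φ ≫ spanCocone i f r b m = spanCocone i f r b l := by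
  change Sp.Hom l m at φ
  cases φ
  · exact Category.id_comp _
  · rfl
  · exact hw.symm

theorem asph_pushout (L : BasicLocalizer.{u}) (h : IsPushout i f r b) [hi : Mono i]
    (hA : L.Asph (El A)) (hB : L.Asph (El B)) (hC : L.Asph (El C)) : L.Asph (El P) := by
  refine El.asph_of_diagram (𝕏 := spanFun i f) (spanCocone i f r b)
    (fun φ => spanCocone_w h.w φ) L (Sp.asph L) (fun l => by cases l <;> assumption) (fun e => ?_)
  have : Quiver.IsThin (Fb (spanCocone i f r b) e) := fun x y => ⟨fun φ ψ =>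
    Subtype.ext (Subsingleton.elim _ _)⟩
  have hp : IsPushout (i.app (op e.s)) (f.app (op e.s)) (r.app (op e.s)) (b.app (op e.s)) :=
    h.map ((evaluation _ _).obj (op e.s))
  have hinj : Function.Injective (i.app (op e.s)) := by
    have : Mono (i.app (op e.s)) := inferInstance
    exact injective_of_mono _
  have hw : ∀ x, r.app (op e.s) (i.app (op e.s) x) = b.app (op e.s) (f.app (op e.s) x) :=
    fun x => types_congr_hom hp.w x
  have hb : Function.Injective (b.app (op e.s)) :=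
    Types.pushoutCocone_inr_injective_of_isColimit hp.isColimit hinj
  have hrb : ∀ x y, r.app (op e.s) x = b.app (op e.s) y →
      ∃ z, i.app (op e.s) z = x ∧ f.app (op e.s) z = y := fun x y hxy =>
    (Types.pushoutCocone_inl_eq_inr_iff_of_isColimit hp.isColimit hinj x y).mp hxy
  by_cases hc : ∃ x₀, b.app (op e.s) x₀ = e.x
  · obtain ⟨x₀, hx₀⟩ := hc
    refine L.asph_of_thin (⟨.c, x₀, hx₀⟩ : Fb (spanCocone i f r b) e) (fun y => y.l ≠ .b) ?_ ?_
    · rintro ⟨l, x, hx⟩
      cases l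
      · exact ⟨⟨.a, x, hx⟩, fun h => (by cases h), ⟨𝟙 _⟩, fun z _ hz => hz⟩
      · obtain ⟨z, hz1, hz2⟩ := hrb x x₀ (Eq.trans (show r.app (op e.s) x = e.x from hx) hx₀.symm)
        have hz3 : (spanCocone i f r b .a).app (op e.s) z = e.x := by
          show r.app (op e.s) (i.app (op e.s) z) = e.x
          rw [hz1]
          exact hx
        refine ⟨⟨.a, z, hz3⟩, fun h => (by cases h), ⟨⟨Sp.Hom.ab, ?_⟩⟩, ?_⟩
        · exact hz1
        · rintro ⟨l', z', hz'⟩ hN ⟨⟨φ, hφ⟩⟩
          change Sp.Hom l' .b at φ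
          cases φ
          · exact absurd rfl hN
          · refine ⟨⟨Sp.Hom.id _, ?_⟩⟩
            have h1 : i.app (op e.s) z' = x := hφ
            exact hinj (h1.trans hz1.symm)
      · exact ⟨⟨.c, x, hx⟩, fun h => (by cases h), ⟨𝟙 _⟩, fun z _ hz => hz⟩
    · rintro ⟨l, x, hx⟩ hN
      cases l
      · refine ⟨⟨Sp.Hom.ac, ?_⟩⟩
        have h1 : r.app (op e.s) (i.app (op e.s) x) = e.x := hx
        show f.app (op e.s) x = x₀
        apply hb
        rw [← hw, h1, hx₀]
      · exact absurd rfl hN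
      · refine ⟨⟨Sp.Hom.id _, ?_⟩⟩
        have h1 : b.app (op e.s) x = e.x := hx
        exact hb (h1.trans hx₀.symm)
  · obtain ⟨x₀, hx₀⟩ | h' := Types.eq_or_eq_of_isPushout hp e.x
    swap
    · exact absurd h' hc
    refine L.asph_of_thin (⟨.b, x₀, hx₀⟩ : Fb (spanCocone i f r b) e) (fun _ => True) ?_ ?_
    · exact fun x => ⟨x, trivial, ⟨𝟙 _⟩, fun z _ hz => hz⟩
    · rintro ⟨l, x, hx⟩ _
      cases l
      · have h1 : r.app (op e.s) (i.app (op e.s) x) = e.x := hx
        exact absurd ⟨_, (hw x).symm.trans h1⟩ hc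
      · refine ⟨⟨Sp.Hom.id _, ?_⟩⟩
        have h1 : r.app (op e.s) x = e.x := hx
        refine eq_of_isPushout hp x₀ x (fun s hs => hc ⟨f.app (op e.s) s, ?_⟩) (h1.trans hx₀.symm)
        rw [← hw, hs, hx₀]
      · have h1 : b.app (op e.s) x = e.x := hx
        exact absurd ⟨_, h1⟩ hc

end

end Pool.Agent.J4.H13.PM
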